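import Mathlib

/-!
# Step functions with values in a topological vector space (Hartman–Mycielski)
-/

set_option autoImplicit false

universe u v w

namespace Q178.Hm

open Set Topology Filter MeasureTheory
open scoped ENNReal Pointwise

variable (E : Type u) [AddCommGroup E] [Module ℝ E]

/-- the vector space of all functions `ℝ → E` of finite range -/
def finRange : Submodule ℝ (ℝ → E) where
  carrier := {f | (range f).Finite}
  add_mem' := by
    intro f g hf hg
    refine (hf.add hg).subset ?_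
    rintro _ ⟨t, rfl⟩
    exact Set.add_mem_add (mem_range_self t) (mem_range_self t)
  zero_mem' := by
    refine (finite_singleton (0 : E)).subset ?_
    rintro _ ⟨t, rfl⟩
    rfl
  smul_mem' := by
    intro c f hf
    refine (hf.image (fun e => c • e)).subset ?_
    rintro _ ⟨t, rfl⟩
    exact ⟨f t, mem_range_self t, rfl⟩

/-- the same vector space, without the topology of pointwise convergence -/
def HM : Type u := finRange E

noncomputable instance : AddCommGroup (HM E) := inferInstanceAs (AddCommGroup (finRange E))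
noncomputable instance : Module ℝ (HM E) := inferInstanceAs (Module ℝ (finRange E))

variable {E}

/-- the underlying function -/
def HM.fn (f : HM E) : ℝ → E := f.1

lemma HM.finite (f : HM E) : (range f.fn).Finite := f.2

lemma HM.ext {f g : HM E} (h : ∀ t, f.fn t = g.fn t) : f = g :=
  Subtype.ext (funext h)

@[simp] lemma HM.add_fn (f g : HM E) (t : ℝ) : (f + g).fn t = f.fn t + g.fn t := rfl
@[simp] lemma HM.sub_fn (f g : HM E) (t : ℝ) : (f - g).fn t = f.fn t - g.fn t := rfl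
@[simp] lemma HM.neg_fn (f : HM E) (t : ℝ) : (-f).fn t = -f.fn t := rfl
@[simp] lemma HM.zero_fn (t : ℝ) : (0 : HM E).fn t = 0 := rfl
@[simp] lemma HM.smul_fn (c : ℝ) (f : HM E) (t : ℝ) : (c • f).fn t = c • f.fn t := rfl

/-- evaluation at a point, as an additive homomorphism -/
def HM.ev (t : ℝ) : HM E →+ E where
  toFun f := f.fn t
  map_zero' := rfl
  map_add' _ _ := rfl

@[simp] lemma HM.ev_apply (t : ℝ) (f : HM E) : HM.ev t f = f.fn t := rfl

lemma HM.sum_fn {ι : Type*} (s : Finset ι) (f : ι → HM E) (t : ℝ) :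
    (∑ i ∈ s, f i).fn t = ∑ i ∈ s, (f i).fn t :=
  map_sum (HM.ev (E := E) t) f s

/-- the basic neighbourhood of `0` -/
def nb (U : Set E) (ε : ℝ≥0∞) : Set (HM E) :=
  {f | volume {t : ℝ | t ∈ Ico (0 : ℝ) 1 ∧ f.fn t ∉ U} < ε}

lemma nb_mono {U U' : Set E} {ε ε' : ℝ≥0∞} (hU : U ⊆ U') (hε : ε ≤ ε') : nb U ε ⊆ nb U' ε' := by
  intro f hf
  refine lt_of_le_of_lt (measure_mono ?_) (lt_of_lt_of_le hf hε)
  rintro t ⟨ht, h⟩
  exact ⟨ht, fun h' => h (hU h')⟩

lemma mem_nb_of_forall {U : Set E} {ε : ℝ≥0∞} (hε : ε ≠ 0) {f : HM E}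
    (h : ∀ t ∈ Ico (0 : ℝ) 1, f.fn t ∈ U) : f ∈ nb U ε := by
  have : {t : ℝ | t ∈ Ico (0 : ℝ) 1 ∧ f.fn t ∉ U} = ∅ := by
    ext t
    simp only [mem_ofPred_eq, mem_empty_iff_false, iff_false, not_and, not_not]
    exact h t
  change volume {t : ℝ | t ∈ Ico (0 : ℝ) 1 ∧ f.fn t ∉ U} < ε
  rw [this, measure_empty]
  exact pos_iff_ne_zero.2 hε

variable [TopologicalSpace E] [IsTopologicalAddGroup E] [ContinuousSMul ℝ E]

/-- the basis of neighbourhoods of `0` in the space of step functions, with the topology of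
convergence in measure on `[0, 1)` -/
noncomputable def basis (E : Type u) [AddCommGroup E] [Module ℝ E]
    [TopologicalSpace E] [IsTopologicalAddGroup E] [ContinuousSMul ℝ E] :
    ModuleFilterBasis ℝ (HM E) where
  sets := {N | ∃ U ∈ 𝓝 (0 : E), ∃ ε : ℝ≥0∞, ε ≠ 0 ∧ N = nb U ε}
  nonempty := ⟨nb univ 1, univ, univ_mem, 1, one_ne_zero, rfl⟩
  inter_sets := by
    rintro _ _ ⟨U, hU, ε, hε, rfl⟩ ⟨U', hU', ε', hε', rfl⟩
    refine ⟨nb (U ∩ U') (min ε ε'), ⟨U ∩ U', inter_mem hU hU', min ε ε', ?_, rfl⟩, ?_⟩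
    · rw [← pos_iff_ne_zero] at hε hε' ⊢
      exact lt_min hε hε'
    · exact subset_inter (nb_mono inter_subset_left (min_le_left _ _))
        (nb_mono inter_subset_right (min_le_right _ _))
  zero' := by
    rintro _ ⟨U, hU, ε, hε, rfl⟩
    exact mem_nb_of_forall hε fun t _ => mem_of_mem_nhds hU
  add' := by
    rintro _ ⟨U, hU, ε, hε, rfl⟩
    obtain ⟨W, hW, hWW⟩ := exists_nhds_zero_half hU
    refine ⟨nb W (ε / 2), ⟨W, hW, ε / 2, (ENNReal.half_pos hε).ne', rfl⟩, ?_⟩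
    rintro _ ⟨f, hf, g, hg, rfl⟩
    have h1 : {t : ℝ | t ∈ Ico (0 : ℝ) 1 ∧ (f + g).fn t ∉ U} ⊆
        {t : ℝ | t ∈ Ico (0 : ℝ) 1 ∧ f.fn t ∉ W} ∪ {t : ℝ | t ∈ Ico (0 : ℝ) 1 ∧ g.fn t ∉ W} := by
      rintro t ⟨ht, h⟩
      by_contra hc
      simp only [mem_union, mem_ofPred_eq, not_or, not_and, not_not] at hc
      exact h (hWW _ (hc.1 ht) _ (hc.2 ht))
    change volume {t : ℝ | t ∈ Ico (0 : ℝ) 1 ∧ (f + g).fn t ∉ U} < ε
    calc volume {t : ℝ | t ∈ Ico (0 : ℝ) 1 ∧ (f + g).fn t ∉ U} ≤ _ := measure_mono h1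
      _ ≤ _ := measure_union_le _ _
      _ < ε / 2 + ε / 2 := ENNReal.add_lt_add hf hg
      _ = ε := ENNReal.add_halves ε
  neg' := by
    rintro _ ⟨U, hU, ε, hε, rfl⟩
    refine ⟨nb (-U) ε, ⟨-U, neg_mem_nhds_zero E hU, ε, hε, rfl⟩, ?_⟩
    intro f hf
    refine lt_of_le_of_lt (measure_mono ?_) hf
    rintro t ⟨ht, h⟩
    refine ⟨ht, fun h' => h ?_⟩
    simpa using h'
  conj' := by
    rintro f₀ _ ⟨U, hU, ε, hε, rfl⟩
    refine ⟨nb U ε, ⟨U, hU, ε, hε, rfl⟩, ?_⟩
    intro f hf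
    change f₀ + f + -f₀ ∈ nb U ε
    rwa [← sub_eq_add_neg, add_sub_cancel_left]
  smul' := by
    rintro _ ⟨U, hU, ε, hε, rfl⟩
    have h1 : Tendsto (fun p : ℝ × E => p.1 • p.2) (𝓝 0 ×ˢ 𝓝 0) (𝓝 0) := by
      have := (continuous_smul (M := ℝ) (X := E)).tendsto (0, 0)
      rwa [nhds_prod_eq, smul_zero] at this
    obtain ⟨A, hA, W, hW, h2⟩ := Filter.mem_prod_iff.1 (h1 hU)
    refine ⟨A, hA, nb W ε, ⟨W, hW, ε, hε, rfl⟩, ?_⟩
    rintro _ ⟨a, ha, f, hf, rfl⟩
    refine lt_of_le_of_lt (measure_mono ?_) hf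
    rintro t ⟨ht, h⟩
    refine ⟨ht, fun h' => h ?_⟩
    exact h2 (show (a, f.fn t) ∈ A ×ˢ W from ⟨ha, h'⟩)
  smul_left' := by
    rintro a _ ⟨U, hU, ε, hε, rfl⟩
    have h1 : (fun e : E => a • e) ⁻¹' U ∈ 𝓝 (0 : E) := by
      refine (continuous_const_smul a).continuousAt.preimage_mem_nhds ?_
      rwa [smul_zero]
    refine ⟨nb ((fun e : E => a • e) ⁻¹' U) ε, ⟨_, h1, ε, hε, rfl⟩, ?_⟩
    intro f hf
    exact hf
  smul_right' := by
    rintro f _ ⟨U, hU, ε, hε, rfl⟩
    have h1 : ∀ e ∈ range f.fn, ∀ᶠ c : ℝ in 𝓝 0, c • e ∈ U := by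
      intro e _
      have h2 : Tendsto (fun c : ℝ => c • e) (𝓝 0) (𝓝 0) := by
        have h3 : Continuous (fun c : ℝ => c • e) := continuous_id.smul continuous_const
        simpa using h3.tendsto (0 : ℝ)
      exact h2 hU
    have h2 := (f.finite.eventually_all (l := 𝓝 (0 : ℝ))).2 h1
    filter_upwards [h2] with c hc
    exact mem_nb_of_forall hε fun t _ => hc _ (mem_range_self t)

noncomputable instance : TopologicalSpace (HM E) := (basis E).topology

instance : IsTopologicalAddGroup (HM E) := (basis E).isTopologicalAddGroup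

instance : ContinuousSMul ℝ (HM E) := (basis E).continuousSMul

lemma nb_mem_nhds {U : Set E} (hU : U ∈ 𝓝 (0 : E)) {ε : ℝ≥0∞} (hε : ε ≠ 0) :
    nb U ε ∈ 𝓝 (0 : HM E) :=
  (basis E).toAddGroupFilterBasis.nhds_zero_hasBasis.mem_of_mem ⟨U, hU, ε, hε, rfl⟩

lemma exists_nb_subset {s : Set (HM E)} (hs : s ∈ 𝓝 (0 : HM E)) :
    ∃ U ∈ 𝓝 (0 : E), ∃ ε : ℝ≥0∞, ε ≠ 0 ∧ nb U ε ⊆ s := by
  obtain ⟨_, ⟨U, hU, ε, hε, rfl⟩, h⟩ :=
    (basis E).toAddGroupFilterBasis.nhds_zero_hasBasis.mem_iff.1 hs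
  exact ⟨U, hU, ε, hε, h⟩

/-- a convergence criterion -/
lemma tendsto_iff {α : Type*} {l : Filter α} {F : α → HM E} {f : HM E} :
    Tendsto F l (𝓝 f) ↔
      ∀ U ∈ 𝓝 (0 : E), ∀ ε : ℝ≥0∞, ε ≠ 0 → ∀ᶠ a in l, F a - f ∈ nb U ε := by
  have h0 : Tendsto F l (𝓝 f) ↔ Tendsto (fun a => F a - f) l (𝓝 0) := by
    rw [tendsto_sub_nhds_zero_iff]
  rw [h0]
  constructor
  · intro h U hU ε hε
    exact h (nb_mem_nhds hU hε)
  · intro h s hs
    obtain ⟨U, hU, ε, hε, hN⟩ := exists_nb_subset hs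
    exact mem_of_superset (h U hU ε hε) fun a ha => hN ha

omit [TopologicalSpace E] [IsTopologicalAddGroup E] [ContinuousSMul ℝ E] in
variable (E) in
/-- the constant functions -/
def const : E →ₗ[ℝ] HM E where
  toFun e := ⟨fun _ => e, (finite_singleton e).subset (by rintro _ ⟨t, rfl⟩; rfl)⟩
  map_add' _ _ := rfl
  map_smul' _ _ := rfl

omit [TopologicalSpace E] [IsTopologicalAddGroup E] [ContinuousSMul ℝ E] in
@[simp] lemma const_fn (e : E) (t : ℝ) : (const E e).fn t = e := rfl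

lemma continuous_const_map : Continuous (const E) := by
  rw [continuous_iff_continuousAt]
  intro e
  rw [ContinuousAt, tendsto_iff]
  intro U hU ε hε
  have h1 : Tendsto (fun e' : E => e' - e) (𝓝 e) (𝓝 0) := by
    have h2 : Continuous fun e' : E => e' - e := continuous_id.sub continuous_const
    simpa using h2.tendsto e
  filter_upwards [h1 hU] with e' he'
  exact mem_nb_of_forall hε fun t _ => he'

lemma isInducing_const : IsInducing (const E) := by
  rw [isInducing_iff_nhds]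
  intro e
  refine le_antisymm (continuous_const_map.tendsto e).le_comap ?_
  intro U hU
  have h1 : (fun e' : E => e' + e) ⁻¹' U ∈ 𝓝 (0 : E) := by
    have h2 : Continuous fun e' : E => e' + e := continuous_id.add continuous_const
    refine h2.continuousAt.preimage_mem_nhds ?_
    rwa [zero_add]
  have h3 : ∀ᶠ F in 𝓝 (const E e), F - const E e ∈ nb ((fun e' : E => e' + e) ⁻¹' U) 1 :=
    (tendsto_iff.1 tendsto_id) _ h1 1 one_ne_zero
  refine ⟨_, h3, ?_⟩
  intro e' he'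
  by_contra hc
  have h4 : {t : ℝ | t ∈ Ico (0 : ℝ) 1 ∧
      (const E e' - const E e).fn t ∉ (fun e' : E => e' + e) ⁻¹' U} = Ico (0 : ℝ) 1 := by
    ext t
    simp [hc]
  have h5 : volume {t : ℝ | t ∈ Ico (0 : ℝ) 1 ∧
      (const E e' - const E e).fn t ∉ (fun e' : E => e' + e) ⁻¹' U} < 1 := he'
  rw [h4] at h5
  simp at h5

omit [Module ℝ E] [TopologicalSpace E] [IsTopologicalAddGroup E] [ContinuousSMul ℝ E] in
lemma finite_step (a : ℝ) (e : E) : (range fun t : ℝ => if t < a then e else 0).Finite := by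
  refine (Set.toFinite {e, 0}).subset ?_
  rintro _ ⟨t, rfl⟩
  by_cases h : t < a
  · simp [h]
  · simp [h]

/-- the step function with value `e` on `(-∞, a)` and `0` elsewhere -/
noncomputable def step (a : ℝ) (e : E) : HM E := ⟨fun t => if t < a then e else 0, finite_step a e⟩

omit [TopologicalSpace E] [IsTopologicalAddGroup E] [ContinuousSMul ℝ E] in
@[simp] lemma step_fn (a : ℝ) (e : E) (t : ℝ) : (step a e).fn t = if t < a then e else 0 := rfl

lemma continuous_step (e : E) : Continuous fun a : ℝ => step a e := by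
  rw [continuous_iff_continuousAt]
  intro a
  rw [ContinuousAt, tendsto_iff]
  intro U hU ε hε
  have h1 : Tendsto (fun b : ℝ => volume (Icc (min a b) (max a b))) (𝓝 a) (𝓝 0) := by
    simp only [Real.volume_Icc]
    have h2 : Continuous fun b : ℝ => ENNReal.ofReal (max a b - min a b) :=
      ENNReal.continuous_ofReal.comp (by fun_prop)
    simpa using h2.tendsto a
  have h3 : ∀ᶠ b in 𝓝 a, volume (Icc (min a b) (max a b)) < ε :=
    h1 (Iio_mem_nhds (pos_iff_ne_zero.2 hε))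
  filter_upwards [h3] with b hb
  refine lt_of_le_of_lt (measure_mono ?_) hb
  rintro t ⟨_, ht⟩
  by_contra hc
  apply ht
  have h4 : (step b e - step a e).fn t = 0 := by
    rw [HM.sub_fn, step_fn, step_fn]
    rw [mem_Icc, not_and_or, not_le, not_le] at hc
    rcases hc with hc | hc
    · rw [if_pos (lt_of_lt_of_le hc (min_le_right _ _)),
        if_pos (lt_of_lt_of_le hc (min_le_left _ _)), sub_self]
    · rw [if_neg (not_lt.2 ((le_max_right _ _).trans hc.le)),
        if_neg (not_lt.2 ((le_max_left _ _).trans hc.le)), sub_self]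
  rw [h4]
  exact mem_of_mem_nhds hU

end Q178.Hm
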