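import Mathlib
import Pool.Agent.Q178.Hm.Space

/-!
# Extension of maps from a closed subset of a metrizable space into the space of step functions
-/

set_option autoImplicit false

universe u v w

namespace Q178.Hm

open Set Topology Filter MeasureTheory
open scoped ENNReal

/-- the telescoping lemma for the step functions -/
lemma steps {ι : Type*} [LinearOrder ι] {E : Type*} [AddCommGroup E] (s : Finset ι) (w : ι → ℝ)
    (hw : ∀ i, 0 ≤ w i) (e : ι → E) (t : ℝ) :
    (0 ≤ t → t < ∑ i ∈ s, w i → ∃ i ∈ s, w i ≠ 0 ∧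
      ∑ i ∈ s, ((if t < ∑ j ∈ s with j ≤ i, w j then e i else 0) -
        (if t < ∑ j ∈ s with j < i, w j then e i else 0)) = e i) ∧
    (∑ i ∈ s, w i ≤ t → 
      ∑ i ∈ s, ((if t < ∑ j ∈ s with j ≤ i, w j then e i else 0) -
        (if t < ∑ j ∈ s with j < i, w j then e i else 0)) = 0) := by
  classical
  induction s using Finset.induction_on_max with
  | empty =>
    constructor
    · intro h0 h1
      simp at h1
      exact absurd h1 (not_lt.2 h0)
    · intro _
      simp
  | insert a s ha ih =>
    have has : a ∉ s := fun h => lt_irrefl _ (ha a h)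
    have h1 : ∀ i ∈ s, ∑ j ∈ insert a s with j ≤ i, w j = ∑ j ∈ s with j ≤ i, w j := by
      intro i hi
      congr 1
      rw [Finset.filter_insert, if_neg (not_le.2 (ha i hi))]
    have h2 : ∀ i ∈ s, ∑ j ∈ insert a s with j < i, w j = ∑ j ∈ s with j < i, w j := by
      intro i hi
      congr 1
      rw [Finset.filter_insert, if_neg (not_lt.2 (ha i hi).le)]
    have h3 : ∑ j ∈ insert a s with j ≤ a, w j = ∑ j ∈ insert a s, w j := by
      congr 1
      refine Finset.filter_true_of_mem fun j hj => ?_
      rcases Finset.mem_insert.1 hj with rfl | hj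
      · exact le_rfl
      · exact (ha j hj).le
    have h4 : ∑ j ∈ insert a s with j < a, w j = ∑ j ∈ s, w j := by
      congr 1
      rw [Finset.filter_insert, if_neg (lt_irrefl a)]
      exact Finset.filter_true_of_mem fun j hj => ha j hj
    have h5 : ∑ i ∈ insert a s, ((if t < ∑ j ∈ insert a s with j ≤ i, w j then e i else 0) -
        (if t < ∑ j ∈ insert a s with j < i, w j then e i else 0)) =
        ((if t < w a + ∑ j ∈ s, w j then e a else 0) - (if t < ∑ j ∈ s, w j then e a else 0)) +
        ∑ i ∈ s, ((if t < ∑ j ∈ s with j ≤ i, w j then e i else 0) -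
        (if t < ∑ j ∈ s with j < i, w j then e i else 0)) := by
      rw [Finset.sum_insert has, h3, h4, Finset.sum_insert has]
      congr 1
      refine Finset.sum_congr rfl fun i hi => ?_
      rw [h1 i hi, h2 i hi]
    rw [h5, Finset.sum_insert has]
    constructor
    · intro h0 ht
      by_cases h6 : t < ∑ j ∈ s, w j
      · obtain ⟨i, hi, hwi, h7⟩ := ih.1 h0 h6
        refine ⟨i, Finset.mem_insert_of_mem hi, hwi, ?_⟩
        rw [h7, if_pos ht, if_pos h6, sub_self, zero_add]
      · refine ⟨a, Finset.mem_insert_self _ _, ?_, ?_⟩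
        · intro h
          rw [h, zero_add] at ht
          exact h6 ht
        · rw [if_pos ht, if_neg h6, sub_zero, ih.2 (not_lt.1 h6), add_zero]
    · intro ht
      have h6 : ∑ j ∈ s, w j ≤ t := by linarith [hw a]
      rw [ih.2 h6, if_neg (not_lt.2 ht), if_neg (not_lt.2 h6), sub_zero, add_zero]

/-- The Dugundji partition of unity on the complement of a closed set. -/
lemma exists_dugundji {X : Type u} [PseudoMetricSpace X] {Y : Set X} (hY : IsClosed Y)
    (hne : Y.Nonempty) :
    ∃ (φ : PartitionOfUnity {x : X // x ∉ Y} {x : X // x ∉ Y} univ) (c : {x : X // x ∉ Y} → Y),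
      ∀ (y : Y) (x i : {x : X // x ∉ Y}), φ i x ≠ 0 → dist (c i : X) y ≤ 4 * dist (x : X) y := by
  classical
  have hpos : ∀ i : {x : X // x ∉ Y}, 0 < Metric.infDist (i : X) Y := fun i =>
    (hY.notMem_iff_infDist_pos hne).1 i.2
  have h1 : ∀ i : {x : X // x ∉ Y}, ∃ c : Y, dist (i : X) c < 2 * Metric.infDist (i : X) Y := by
    intro i
    obtain ⟨c, hc, h⟩ := (Metric.infDist_lt_iff hne).1
      (show Metric.infDist (i : X) Y < 2 * Metric.infDist (i : X) Y by linarith [hpos i])
    exact ⟨⟨c, hc⟩, h⟩
  choose c hc using h1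
  obtain ⟨φ, hφ⟩ := PartitionOfUnity.exists_isSubordinate (X := {x : X // x ∉ Y})
    isClosed_univ
    (fun i : {x : X // x ∉ Y} => Metric.ball i (Metric.infDist (i : X) Y / 4))
    (fun i => Metric.isOpen_ball)
    (fun x _ => mem_iUnion.2 ⟨x, Metric.mem_ball_self (by linarith [hpos x])⟩)
  refine ⟨φ, c, fun y x i hi => ?_⟩
  have h2 : x ∈ Metric.ball i (Metric.infDist (i : X) Y / 4) :=
    hφ i (subset_tsupport _ (Function.mem_support.2 hi))
  have h3 : dist (x : X) i < Metric.infDist (i : X) Y / 4 := h2
  have h4 : Metric.infDist (i : X) Y ≤ Metric.infDist (x : X) Y + dist (i : X) x :=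
    Metric.infDist_le_infDist_add_dist
  have h5 : Metric.infDist (x : X) Y ≤ dist (x : X) y := Metric.infDist_le_dist_of_mem y.2
  have h6 := hc i
  have h7 : dist (c i : X) y ≤ dist (c i : X) i + dist (i : X) x + dist (x : X) y :=
    dist_triangle4 _ _ _ _
  rw [dist_comm (c i : X) i, dist_comm (i : X) x] at h7
  rw [dist_comm (i : X) x] at h4
  have h8 := hpos i
  linarith

section Extend

variable {X : Type u} [TopologicalSpace X] {E : Type v} [AddCommGroup E] [Module ℝ E]
  [TopologicalSpace E] [IsTopologicalAddGroup E] [ContinuousSMul ℝ E]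
variable {ι : Type w} [LinearOrder ι]

/-- the map into the step functions given by a partition of unity -/
noncomputable def mix (φ : PartitionOfUnity ι X univ) (e : ι → E) (x : X) : HM E :=
  ∑ᶠ i, (step (∑ᶠ j, if j ≤ i then φ j x else 0) (e i) -
    step (∑ᶠ j, if j < i then φ j x else 0) (e i))

omit [LinearOrder ι] in
lemma partial_eq (φ : PartitionOfUnity ι X univ) (x : X) (p : ι → Prop) [DecidablePred p]
    (s : Finset ι) (hs : ∀ i, φ i x ≠ 0 → i ∈ s) :
    (∑ᶠ j, if p j then φ j x else 0) = ∑ j ∈ s with p j, φ j x := by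
  rw [finsum_eq_sum_of_support_subset (s := s), Finset.sum_filter]
  intro j hj
  refine hs j fun h => ?_
  rw [Function.mem_support] at hj
  simp [h] at hj

omit [TopologicalSpace E] [IsTopologicalAddGroup E] [ContinuousSMul ℝ E] in
lemma term_support (φ : PartitionOfUnity ι X univ) (e : ι → E) (x : X) (i : ι)
    (h : φ i x = 0) :
    step (∑ᶠ j, if j ≤ i then φ j x else 0) (e i) -
      step (∑ᶠ j, if j < i then φ j x else 0) (e i) = 0 := by
  have : ∀ j, (if j ≤ i then φ j x else 0) = if j < i then φ j x else 0 := by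
    intro j
    by_cases h1 : j < i
    · rw [if_pos h1, if_pos h1.le]
    · rw [if_neg h1]
      by_cases h2 : j ≤ i
      · have h3 : j = i := le_antisymm h2 (not_lt.1 h1)
        rw [if_pos h2, h3, h]
      · rw [if_neg h2]
  simp only [this, sub_self]

omit [TopologicalSpace E] [IsTopologicalAddGroup E] [ContinuousSMul ℝ E] in
lemma mix_value (φ : PartitionOfUnity ι X univ) (e : ι → E) (x : X) (t : ℝ)
    (ht : t ∈ Ico (0 : ℝ) 1) : ∃ i, φ i x ≠ 0 ∧ (mix φ e x).fn t = e i := by
  classical
  have hfin : (Function.support fun i => φ i x).Finite := φ.locallyFinite.point_finite x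
  have hs : ∀ i, φ i x ≠ 0 → i ∈ hfin.toFinset := fun i hi => by simpa using hi
  have h1 : mix φ e x = ∑ i ∈ hfin.toFinset,
      (step (∑ j ∈ hfin.toFinset with j ≤ i, φ j x) (e i) -
        step (∑ j ∈ hfin.toFinset with j < i, φ j x) (e i)) := by
    unfold mix
    rw [finsum_eq_sum_of_support_subset (s := hfin.toFinset)]
    · refine Finset.sum_congr rfl fun i _ => ?_
      rw [partial_eq φ x (fun j => j ≤ i) _ hs, partial_eq φ x (fun j => j < i) _ hs]
    · intro i hi
      refine hs i fun h => hi ?_
      exact term_support φ e x i h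
  have h2 : ∑ i ∈ hfin.toFinset, φ i x = 1 := by
    rw [← finsum_eq_sum_of_support_subset (s := hfin.toFinset)]
    · exact φ.sum_eq_one (mem_univ x)
    · intro i hi
      exact hs i hi
  obtain ⟨i, hi, hne, h3⟩ := (steps hfin.toFinset (fun i => φ i x) (fun i => φ.nonneg i x) e t).1
    ht.1 (by rw [h2]; exact ht.2)
  refine ⟨i, hne, ?_⟩
  rw [h1, HM.sum_fn, ← h3]
  rfl

lemma continuous_mix (φ : PartitionOfUnity ι X univ) (e : ι → E) : Continuous (mix φ e) := by
  have hpart : ∀ (p : ι → Prop) [DecidablePred p],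
      Continuous fun x => ∑ᶠ j, if p j then φ j x else 0 := by
    intro p _
    refine continuous_finsum (fun j => ?_) (φ.locallyFinite.subset fun j x hx => ?_)
    · by_cases h : p j
      · simp only [if_pos h]
        exact (φ j).continuous
      · simp only [if_neg h]
        exact continuous_const
    · rw [Function.mem_support] at hx ⊢
      intro h
      simp [h] at hx
  unfold mix
  refine continuous_finsum (fun i => ?_) (φ.locallyFinite.subset fun i x hx => ?_)
  · exact ((continuous_step (e i)).comp (hpart fun j => j ≤ i)).sub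
      ((continuous_step (e i)).comp (hpart fun j => j < i))
  · rw [Function.mem_support] at hx ⊢
    intro h
    exact hx (term_support φ e x i h)

end Extend

/-- **Extension theorem.**  A continuous map of a closed subset `Y` of a metrizable space `X` into
a topological vector space `E` extends to a continuous map of `X` into the space of step functions
with values in `E`. -/
theorem exists_extension {X : Type u} [TopologicalSpace X] [TopologicalSpace.PseudoMetrizableSpace X] {Y : Set X}
    (hY : IsClosed Y) {E : Type v} [AddCommGroup E] [Module ℝ E]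
    [TopologicalSpace E] [IsTopologicalAddGroup E] [ContinuousSMul ℝ E] (f : Y → E)
    (hf : Continuous f) :
    ∃ G : X → HM E, Continuous G ∧ ∀ y : Y, G y = const E (f y) := by
  classical
  rcases Y.eq_empty_or_nonempty with rfl | hne
  · exact ⟨fun _ => 0, continuous_const, fun y => y.2.elim⟩
  let _ : PseudoMetricSpace X := TopologicalSpace.pseudoMetrizableSpacePseudoMetric X
  obtain ⟨φ, c, hc⟩ := exists_dugundji hY hne
  let _ : LinearOrder {x : X // x ∉ Y} := linearOrderOfSTO WellOrderingRel
  let G : X → HM E := fun x =>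
    if h : x ∈ Y then const E (f ⟨x, h⟩) else mix φ (fun i => f (c i)) ⟨x, h⟩
  have hG1 : ∀ y : Y, G y = const E (f y) := fun y => dif_pos y.2
  have hG2 : ∀ x : {x : X // x ∉ Y}, G x = mix φ (fun i => f (c i)) x := fun x => dif_neg x.2
  refine ⟨G, ?_, hG1⟩
  rw [continuous_iff_continuousAt]
  intro x
  by_cases hx : x ∈ Y
  · -- a point of `Y`
    rw [ContinuousAt, tendsto_iff]
    intro U hU ε hε
    have h1 : ∀ᶠ y in 𝓝 (⟨x, hx⟩ : Y), f y - f ⟨x, hx⟩ ∈ U := by
      have h2 : Continuous fun y : Y => f y - f ⟨x, hx⟩ := hf.sub continuous_const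
      have h3 := h2.tendsto ⟨x, hx⟩
      rw [sub_self] at h3
      exact h3 hU
    obtain ⟨δ, hδ, h4⟩ := Metric.eventually_nhds_iff.1 h1
    filter_upwards [Metric.ball_mem_nhds x (show 0 < δ / 4 by positivity)] with z hz
    have hz' : dist z x < δ / 4 := hz
    have hGx : G x = const E (f ⟨x, hx⟩) := hG1 ⟨x, hx⟩
    refine mem_nb_of_forall hε fun t ht => ?_
    rw [HM.sub_fn, hGx, const_fn]
    by_cases hzY : z ∈ Y
    · have hGz : G z = const E (f ⟨z, hzY⟩) := hG1 ⟨z, hzY⟩
      rw [hGz, const_fn]
      refine h4 ?_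
      change dist z x < δ
      linarith
    · have hGz : G z = mix φ (fun i => f (c i)) ⟨z, hzY⟩ := hG2 ⟨z, hzY⟩
      obtain ⟨i, hi, h5⟩ := mix_value φ (fun i => f (c i)) ⟨z, hzY⟩ t ht
      rw [hGz, h5]
      refine h4 ?_
      have h6 := hc ⟨x, hx⟩ ⟨z, hzY⟩ i hi
      change dist (c i : X) x < δ
      change dist (c i : X) x ≤ 4 * dist z x at h6
      linarith
  · -- a point off `Y`
    have h1 : IsOpenEmbedding (Subtype.val : {x : X // x ∉ Y} → X) :=
      hY.isOpen_compl.isOpenEmbedding_subtypeVal
    have h2 : ContinuousAt (G ∘ (Subtype.val : {x : X // x ∉ Y} → X)) ⟨x, hx⟩ := by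
      have h3 : G ∘ (Subtype.val : {x : X // x ∉ Y} → X) = mix φ (fun i => f (c i)) :=
        funext hG2
      rw [h3]
      exact (continuous_mix φ _).continuousAt
    exact (h1.continuousAt_iff (x := ⟨x, hx⟩)).1 h2

end Q178.Hm
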